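import Pool.Agent.H97.PRK.Targets

/-!
# MP_e37c09_lc: almost all sections are in small ordinal definable sets
-/

open Ordinal Cardinal Order Set
open scoped ZFSet

universe u

namespace Pool.Agent.H17.PRK

open _root_.HD HD.PRK

theorem l3_lim {K : Cardinal.{u}} (hK : ℵ₀ < K) : Clb K.ord {b : Ordinal.{u} | IsSuccLimit b} := by
  constructor
  · intro a ha
    have hω : ω < K.ord := by
      rw [← ord_aleph0]
      exact ord_lt_ord.2 hK
    refine ⟨a + ω, Ordinal.isPrincipal_add_ord hK.le ha hω, ?_, ?_⟩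
    · exact lt_add_of_pos_right a omega0_pos
    · exact isSuccLimit_add a isSuccLimit_omega0
  · intro x _ hx0 h
    rw [Set.mem_ofPred_eq, Ordinal.isSuccLimit_iff]
    refine ⟨hx0.ne', ?_⟩
    rw [isSuccPrelimit_iff_succ_lt]
    intro a ha
    obtain ⟨z, hz, haz, _⟩ := h a ha
    exact (succ_le_of_lt haz).trans_lt hz

/-- the predicate in the definition of `Z` -/
def QQ (μ ρ : Ordinal.{u}) (F n Y : ZFSet.{u}) : Prop :=
  μ.toZFSet.IsOrdinal ∧ ρ.toZFSet.IsOrdinal ∧ n.IsOrdinal ∧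
    PosX μ.toZFSet.rank ρ.toZFSet.rank (fun x => Agr F x n.rank {a | a.toZFSet ∈ Y})

theorem l3_dz (h0 : T_LOP.{u}) (μ ρ : Ordinal.{u}) {F : ZFSet.{u}} (hF : OD F) :
    DZ.{u} fun v => QQ μ ρ F (v 0) (v 1) := by
  have a1 : DZ.{u} fun v => μ.toZFSet.IsOrdinal ∧ (v 0).IsOrdinal ∧ (v 2).IsOrdinal ∧
      PosX μ.toZFSet.rank (v 0).rank (fun x => Agr (v 1) x (v 2).rank {a | a.toZFSet ∈ v 3}) :=
    DZ.od (R := fun b v => b.IsOrdinal ∧ (v 0).IsOrdinal ∧ (v 2).IsOrdinal ∧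
      PosX b.rank (v 0).rank (fun x => Agr (v 1) x (v 2).rank {a | a.toZFSet ∈ v 3}))
      (OD.ordinal μ) h0.dz
  have a2 : DZ.{u} fun v => μ.toZFSet.IsOrdinal ∧ ρ.toZFSet.IsOrdinal ∧ (v 1).IsOrdinal ∧
      PosX μ.toZFSet.rank ρ.toZFSet.rank
        (fun x => Agr (v 0) x (v 1).rank {a | a.toZFSet ∈ v 2}) :=
    DZ.od (R := fun b v => μ.toZFSet.IsOrdinal ∧ b.IsOrdinal ∧ (v 1).IsOrdinal ∧
      PosX μ.toZFSet.rank b.rank (fun x => Agr (v 0) x (v 1).rank {a | a.toZFSet ∈ v 2}))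
      (OD.ordinal ρ) a1
  exact DZ.od (R := fun b v => QQ μ ρ b (v 0) (v 1)) hF a2

theorem l3_pow (m : Ordinal.{u}) : OD (ZFSet.powerset m.toZFSet) := by
  refine OD.of_mem (P := fun v => v 0 ⊆ m.toZFSet) ?_ fun v => ?_
  · exact DZ.od (R := fun b v => v 0 ⊆ b) (OD.ordinal m) (Loc.sub 1 0).dz
  · rw [ZFSet.mem_powerset]

/-- L3. If there are few splitting points then almost all sections are in small ordinal definable
sets. -/
theorem pf_L3 (h0 : T_LOP.{u}) (h1 : T_NU2.{u}) (h2 : T_L3A.{u}) (h3 : T_L3B.{u}) :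
    T_L3.{u} := by
  intro D K hDr hDs hD0 hK hDK μ hμ F hF hFx hFew
  have hK0 : ℵ₀ < K := hD0.trans hDK
  obtain ⟨C, hC, hCP⟩ := h1 μ K hK hK0
    (fun n x => ¬ PosX μ K.ord fun x' => Agr F x' n (sec F x))
    (fun n hn => h2 D K hDr hDs hD0 hK hDK μ F hFew n hn)
  refine ⟨C ∩ {b | IsSuccLimit b}, Pool.Agent.H54.CL.clb_inter hK0 hK hC (l3_lim hK0), ?_⟩
  intro x hx
  -- the least element of `x`
  have hne : ({a : Ordinal.{u} | a.toZFSet ∈ x}).Nonempty := by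
    obtain ⟨z, hz⟩ := hx.ne
    obtain ⟨a, _, _, _, rfl⟩ := hx.mem z hz
    exact ⟨a, hz⟩
  obtain ⟨m, hmx, hmin⟩ := WellFounded.has_min (wellFounded_lt (α := Ordinal.{u})) _ hne
  have hmx' : m.toZFSet ∈ x := hmx
  obtain ⟨a, ha, haC, _, hma⟩ := hx.mem _ hmx'
  have hmeq : m = a := toZFSet_injective hma
  subst hmeq
  have hlim : IsSuccLimit m := haC.2
  have hsm : SmS μ K.ord C x := by
    refine ⟨hx.ne, fun z hz => ?_, hx.few⟩
    obtain ⟨a, h1, h2, h3, h4⟩ := hx.mem z hz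
    exact ⟨a, h1, h2.1, h3, h4⟩
  have hpos : ∀ n < m, PosX μ K.ord fun x' => Agr F x' n (sec F x) := by
    intro n hn
    refine not_not.1 (hCP x hsm n ?_)
    intro a ha
    exact hn.trans_le (not_lt.1 fun h => hmin a ha h)
  have hagr : ∀ n < m, ∀ x' : ZFSet.{u}, Agr F x' n (sec F x) →
      Agr F x' n {a | a.toZFSet ∈ os K.ord (sec F x)} := by
    intro n hn x' h a han
    rw [h a han]
    have : a < K.ord := (han.trans hn).trans ha
    show _ ↔ a.toZFSet ∈ os K.ord (sec F x)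
    rw [ord_mem_os]
    exact ⟨fun h => ⟨this, h⟩, fun h => h.2⟩
  refine ⟨ZFSet.sep (fun Y => ∀ n ∈ m.toZFSet, QQ μ K.ord F n Y) (ZFSet.powerset m.toZFSet),
    ?_, ?_, ?_⟩
  · refine Pool.Agent.H45.NF.od_sep (l3_pow m) ?_
    refine DZ.od (R := fun b v => ∀ n ∈ b, QQ μ K.ord F n (v 0)) (OD.ordinal m) ?_
    refine DZ.allMem (R := fun n v => QQ μ K.ord F n (v 1)) 0 ?_
    exact (l3_dz h0 μ K.ord hF).ren fun n => if n = 0 then 0 else 2
  · rw [ZFSet.mem_sep, ZFSet.mem_powerset]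
    refine ⟨fun z hz => ?_, fun n hn => ?_⟩
    · obtain ⟨a, _, ha', rfl⟩ := mem_os.1 hz
      exact toZFSet_mem_toZFSet_iff.2 (hFx x a m ha' hmx')
    · obtain ⟨n, hn', rfl⟩ := mem_toZFSet_iff.1 hn
      refine ⟨ZFSet.isOrdinal_toZFSet _, ZFSet.isOrdinal_toZFSet _, ZFSet.isOrdinal_toZFSet _, ?_⟩
      rw [rank_toZFSet, rank_toZFSet, rank_toZFSet]
      intro E hE
      obtain ⟨x', hx', hx2⟩ := hpos n hn' E hE
      exact ⟨x', hx', hagr n hn' x' hx2⟩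
  · refine h3 D K hDs hD0 μ F hFew m ha hlim _ ?_
    intro Y hY
    rw [ZFSet.mem_sep, ZFSet.mem_powerset] at hY
    refine ⟨hY.1, fun n hn => ?_⟩
    obtain ⟨_, _, _, h4⟩ := hY.2 n.toZFSet (toZFSet_mem_toZFSet_iff.2 hn)
    rw [rank_toZFSet, rank_toZFSet, rank_toZFSet] at h4
    exact h4

end Pool.Agent.H17.PRK
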